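import Pool.Agent.H22.FOT.Defs2
import Pool.Agent.H38.FOT.EVP

/-! Board `fog`, row CYO: the density of a cycle. -/

open MeasureTheory unitInterval Set Filter Topology ProbabilityTheory

namespace Pool.FOT

open Pool.Agent.H99.LowerTail

/-- Restricting to different coordinates. -/
theorem mp_inj {V W Ω : Type} [Fintype V] [Fintype W] [MeasurableSpace Ω] (μ : Measure Ω)
    [IsProbabilityMeasure μ] {c : W → V} (hc : Function.Injective c) :
    MeasurePreserving (fun (x : V → Ω) (i : W) => x (c i)) (Measure.pi fun _ => μ)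
      (Measure.pi fun _ => μ) := by
  refine ⟨measurable_pi_iff.2 fun i => measurable_pi_apply _, ?_⟩
  have h1 : iIndepFun (fun (i : W) (x : V → Ω) => x (c i)) (Measure.pi fun _ : V => μ) :=
    (Ev.indep (V := V) μ).precomp hc
  have h2 := (iIndepFun_iff_map_fun_eq_pi_map
    (fun i => (measurable_pi_apply (c i)).aemeasurable)).1 h1
  rw [h2]
  congr 1
  funext i
  exact (Ev.mp_eval μ (c i)).map_eq

/-- The edges of a cycle are different. -/
theorem cyc_inj {V : Type} {n : ℕ} {c : Fin (n + 3) → V} (hc : Function.Injective c) :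
    Function.Injective fun i : Fin (n + 3) => s(c i, c (i + 1)) := by
  intro i j hij
  simp only [Sym2.eq_iff] at hij
  rcases hij with ⟨h, -⟩ | ⟨h, h'⟩
  · exact hc h
  · have e1 := hc h
    have e2 := hc h'
    rw [e1] at e2
    have e3 : (1 : Fin (n + 3)) + 1 = 0 := by
      have : j + 1 + 1 = j + 0 := by rw [e2, add_zero]
      rw [add_assoc] at this
      exact add_left_cancel this
    have e4 := congrArg Fin.val e3
    rw [Fin.val_add, Fin.val_one, Fin.val_zero] at e4
    rw [Nat.mod_eq_of_lt (by omega)] at e4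
    omega

theorem t_cyo (h : CYEStmt) : CYOStmt := by
  intro V Ω _ _ _ μ _ f κ hf r n c _ hrn hc
  rw [← h Ω μ f hf.symm hf.meas hf.bdd n r hrn.symm]
  unfold sDens cyc
  have hm : Measurable fun y : Fin (n + 3) → Ω => ∏ i : Fin (n + 3), (1 * f (y i) (y (i + 1))) := by
    refine Finset.measurable_prod _ fun i _ => ?_
    simp only [one_mul]
    show Measurable ((fun z : Ω × Ω => f z.1 z.2) ∘ fun y : Fin (n + 3) → Ω => (y i, y (i + 1)))
    exact hf.meas.comp ((measurable_pi_apply i).prodMk (measurable_pi_apply (i + 1)))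
  have hp := mp_inj μ hc
  have h1 := integral_map (μ := Measure.pi fun _ : V => μ) hp.measurable.aemeasurable
    hm.aestronglyMeasurable
  rw [hp.map_eq] at h1
  rw [h1]
  congr 1
  funext x
  rw [Finset.prod_image fun i _ j _ hij => cyc_inj hc hij]
  refine Finset.prod_congr rfl fun i _ => ?_
  rw [sVal_mk, one_mul]

end Pool.FOT
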