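import Pool.Agent.H22.FOT.Defs2

/-! Board `fog`, row RG2: density of an almost constant kernel with small rows, even girth. -/

open MeasureTheory unitInterval Set Filter Topology

namespace Pool.FOT

open Pool.Agent.H99.LowerTail

theorem rg2_main (e : ℕ) (he : 2 ≤ e) (a b : ℝ) :
    ∑ k ∈ Finset.range (e + 1), e.choose k • (if k = 0 then a else if k = 1 then b else 0) =
      a + e * b := by
  obtain ⟨d, rfl⟩ : ∃ d, e = d + 2 := ⟨e - 2, by omega⟩
  rw [Finset.sum_range_succ', Finset.sum_range_succ']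
  have h1 : ∑ k ∈ Finset.range (d + 1), (d + 2).choose (k + 1 + 1) •
      (if k + 1 + 1 = 0 then a else if k + 1 + 1 = 1 then b else 0) = 0 := by
    refine Finset.sum_eq_zero fun k _ => ?_
    rw [if_neg (by omega), if_neg (by omega), smul_zero]
  rw [h1]
  simp only [zero_add, one_ne_zero, if_false, if_true, Nat.choose_one_right, Nat.choose_zero_right,
    one_smul, nsmul_eq_mul]
  ring

theorem rg2_pow {m : ℝ} (h1 : 1 / 2 ≤ m) {e k : ℕ} (hk : k ≤ e) :
    (1 / 2 : ℝ) ^ e ≤ m ^ k :=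
  (pow_le_pow_of_le_one (by norm_num) (by norm_num) hk).trans
    (pow_le_pow_left₀ (by norm_num) h1 k)

theorem rg2_low {m t c : ℝ} (h1 : 1 / 2 ≤ m) (h2 : m ≤ 1) (k : ℕ) (hc : 0 ≤ c) (ht : -c ≤ t) :
    -c ≤ m ^ k * t := by
  have h3 : 0 ≤ m ^ k := pow_nonneg (by linarith) k
  have h4 : m ^ k ≤ 1 := pow_le_one₀ (by linarith) h2
  nlinarith

/-- The numbers. -/
theorem rg2_num {V Ω : Type} [Fintype V] [DecidableEq V] [MeasurableSpace Ω] (hE : EXPStmt)
    (hS1 : SM1Stmt)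
    (hS2 : SM2Stmt) (μ : Measure Ω) [IsProbabilityMeasure μ] (E : Finset (Sym2 V))
    (hd : ∀ e ∈ E, ¬ e.IsDiag) {f : Ω → Ω → ℝ} {κ m Q T : ℝ} (hf : FOk μ f κ)
    (hg : ∀ x y, m + f x y = m + f y x) (h1 : 1 / 2 ≤ m) (h2 : m ≤ 1)
    (hκ : κ ≤ (1 / 4) ^ E.card) (hκ0 : 0 ≤ κ) (hQ : 0 ≤ Q) (hT : 0 ≤ T) {A₀ A₁ : Finset (Sym2 V)}
    (hA₀ : A₀ ⊆ E) (hA₀c : A₀.card = 2) (hA₀Q : sDens μ A₀ f hf.symm = Q)
    (hA₁ : T = 0 ∨ (A₁ ⊆ E ∧ 3 ≤ A₁.card ∧ sDens μ A₁ f hf.symm = T))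
    (hA : ∀ A ⊆ E, 3 ≤ A.card → -(κ * (Q + T)) ≤ sDens μ A f hf.symm) :
    m ^ E.card + E.card * m ^ (E.card - 1) * (∫ z : Ω × Ω, f z.1 z.2 ∂(μ.prod μ))
        ≤ sDens μ E (fun x y => m + f x y) hg := by
  rw [hE V Ω μ E m f hf.symm hg hf.meas hf.bdd]
  obtain ⟨c, hc⟩ : ∃ c, c = κ * (Q + T) := ⟨_, rfl⟩
  have hc0 : 0 ≤ c := by
    rw [hc]
    exact mul_nonneg hκ0 (by linarith)
  rw [← hc] at hA
  have he2 : 2 ≤ E.card := by
    rw [← hA₀c]
    exact Finset.card_le_card hA₀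
  obtain ⟨F, hF⟩ : ∃ F, F = ∫ z : Ω × Ω, f z.1 z.2 ∂(μ.prod μ) := ⟨_, rfl⟩
  rw [← hF]
  obtain ⟨g₀, hg₀⟩ : ∃ g₀ : ℕ → ℝ, g₀ = fun k => if k = 0 then m ^ E.card else
    if k = 1 then m ^ (E.card - 1) * F else 0 := ⟨_, rfl⟩
  obtain ⟨δ, hδ⟩ : ∃ δ : ℝ, δ = (1 / 2 : ℝ) ^ E.card := ⟨_, rfl⟩
  have hδ0 : 0 < δ := by
    rw [hδ]
    positivity
  have key : ∀ A ∈ E.powerset, g₀ A.card + ((if A = A₀ then δ * Q else 0) +
      (if A = A₁ then δ * T else 0) - c) ≤ m ^ (E.card - A.card) * sDens μ A f hf.symm := by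
    intro A hAE
    have hAE' := Finset.mem_powerset.1 hAE
    have hcard := Finset.card_le_card hAE'
    have hTz : A = A₁ → A.card < 3 → T = 0 := fun e1 e2 => by
      rcases hA₁ with h | ⟨-, h, -⟩
      · exact h
      · rw [← e1] at h
        omega
    have hTt : A.card < 3 → (if A = A₁ then δ * T else 0) = 0 := fun e2 => by
      split_ifs with e1
      · rw [hTz e1 e2, mul_zero]
      · rfl
    rcases Nat.lt_or_ge A.card 2 with h3 | h3
    · have hne : A ≠ A₀ := fun h => by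
        rw [h, hA₀c] at h3
        omega
      rw [if_neg hne, hTt (by omega)]
      rcases Nat.lt_or_ge A.card 1 with h4 | h4
      · have h5 : A = ∅ := Finset.card_eq_zero.1 (by omega)
        subst h5
        rw [hg₀]
        simp only [Finset.card_empty, if_true, Nat.sub_zero]
        have h6 : sDens μ (∅ : Finset (Sym2 V)) f hf.symm = 1 := by
          unfold sDens
          simp
        rw [h6]
        linarith
      · have h5 : A.card = 1 := by omega
        rw [hS1 V Ω μ A f hf.symm hf.meas hf.bdd (fun e he => hd e (hAE' he)) h5, h5, hg₀, ← hF]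
        simp only [one_ne_zero, if_false, if_true]
        linarith
    · have hg0 : g₀ A.card = 0 := by
        rw [hg₀]
        simp only
        rw [if_neg (by omega), if_neg (by omega)]
      rw [hg0, zero_add]
      have hp : δ ≤ m ^ (E.card - A.card) := by
        rw [hδ]
        exact rg2_pow h1 (by omega)
      rcases Nat.lt_or_ge A.card 3 with h4 | h4
      · rw [hTt h4]
        have h5 : A.card = 2 := by omega
        have h6 := hS2 V Ω μ A f hf.symm hf.meas hf.bdd (fun e he => hd e (hAE' he)) h5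
        split_ifs with e1
        · have h7 : sDens μ A f hf.symm = Q := by
            rw [e1]
            exact hA₀Q
          rw [h7]
          nlinarith
        · have h8 := mul_nonneg (hδ0.le.trans hp) h6
          linarith
      · have hne : A ≠ A₀ := fun h => by
          rw [h, hA₀c] at h4
          omega
        rw [if_neg hne, zero_add]
        have h5 := hA A hAE' h4
        split_ifs with e1
        · rcases hA₁ with h | ⟨-, -, h⟩
          · rw [h, mul_zero, zero_sub]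
            exact rg2_low h1 h2 _ hc0 h5
          · rw [e1, h]
            have h9 : δ * T ≤ m ^ (E.card - A₁.card) * T := by
              rw [← e1]
              exact mul_le_mul_of_nonneg_right hp hT
            linarith
        · rw [zero_sub]
          exact rg2_low h1 h2 _ hc0 h5
  refine le_trans ?_ (Finset.sum_le_sum key)
  rw [Finset.sum_add_distrib, Finset.sum_powerset_apply_card g₀, hg₀,
    rg2_main E.card he2, Finset.sum_sub_distrib, Finset.sum_add_distrib, Finset.sum_const,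
    Finset.card_powerset, nsmul_eq_mul, Finset.sum_ite_eq', Finset.sum_ite_eq',
    if_pos (Finset.mem_powerset.2 hA₀)]
  have h3 : (if A₁ ∈ E.powerset then δ * T else 0) = δ * T := by
    rcases hA₁ with h | ⟨h, -, -⟩
    · rw [h, mul_zero, ite_self]
    · rw [if_pos (Finset.mem_powerset.2 h)]
  rw [h3]
  have h4 : ((2 ^ E.card : ℕ) : ℝ) * c ≤ δ * (Q + T) := by
    rw [hc, ← mul_assoc]
    refine mul_le_mul_of_nonneg_right ?_ (by linarith)
    calc ((2 ^ E.card : ℕ) : ℝ) * κ ≤ (2 : ℝ) ^ E.card * (1 / 4) ^ E.card := by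
          push_cast
          exact mul_le_mul_of_nonneg_left hκ (by positivity)
      _ = δ := by
          rw [hδ, ← mul_pow]
          norm_num
  have h5 : (E.card : ℝ) * m ^ (E.card - 1) * F = E.card * (m ^ (E.card - 1) * F) := by ring
  rw [h5]
  linarith

theorem t_rg2 (hE : EXPStmt) (hS1 : SM1Stmt) (hS2 : SM2Stmt) (hCHR : CHRStmt) (hLF : LF2Stmt)
    (hCYA : CYAStmt) (hCYF : CYFStmt) (hCYL : CYLStmt) (hK : K23Stmt) (hCYO : CYOStmt)
    (hCLS : CLSStmt) (hFOR : FORStmt) (hGEV : GEVStmt) : RG2Stmt := by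
  intro V _ H hev hv
  classical
  refine ⟨(1 / 4) ^ numEdges H, by positivity, ?_⟩
  intro Ω _ μ _ m f κ hf hg h1 h2 hκ
  rw [numEdges_eq] at hκ ⊢
  obtain ⟨v, hv⟩ := hv
  have hadj : ∀ {a b : V}, s(a, b) ∈ edges H ↔ H.Adj a b := fun {a b} => by
    unfold edges
    rw [SimpleGraph.mem_edgeFinset, SimpleGraph.mem_edgeSet]
  have hd : ∀ e ∈ edges H, ¬ e.IsDiag := fun e he => by
    unfold edges at he
    exact H.not_isDiag_of_mem_edgeFinset he
  have hκ0 : 0 ≤ κ := by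
    obtain ⟨x⟩ : Nonempty Ω := nonempty_of_isProbabilityMeasure μ
    exact (integral_nonneg fun y => abs_nonneg _).trans (hf.row x)
  obtain ⟨w, z, hw, hz, hwz⟩ : ∃ w z, H.Adj v w ∧ H.Adj v z ∧ w ≠ z := by
    unfold dg at hv
    rw [← SimpleGraph.card_neighborFinset_eq_degree] at hv
    obtain ⟨w, hw, z, hz, hwz⟩ := Finset.one_lt_card.1 hv
    rw [SimpleGraph.mem_neighborFinset] at hw hz
    exact ⟨w, z, hw, hz, hwz⟩
  have hQ0 : 0 ≤ ∫ x, (∫ y, f x y ∂μ) ^ 2 ∂μ := integral_nonneg fun x => sq_nonneg _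
  have hchr := hCHR V Ω μ f κ hf v w z hw.ne hz.ne hwz
  have hsub : ({s(v, w), s(v, z)} : Finset (Sym2 V)) ⊆ edges H := by
    intro e he
    rw [Finset.mem_insert, Finset.mem_singleton] at he
    rcases he with rfl | rfl
    · exact hadj.2 hw
    · exact hadj.2 hz
  have hcard : ({s(v, w), s(v, z)} : Finset (Sym2 V)).card = 2 := by
    refine Finset.card_pair fun h => hwz ?_
    rw [Sym2.eq_iff] at h
    rcases h with ⟨-, h⟩ | ⟨h, h'⟩
    · exact h
    · rw [← h, ← h'] 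
  rcases hGEV V H hev with hno | ⟨r, hr, hall, n, c, hc, hrn⟩
  · refine rg2_num hE hS1 hS2 μ (edges H) hd (Q := ∫ x, (∫ y, f x y ∂μ) ^ 2 ∂μ) (T := 0)
      (A₁ := ∅) hf hg h1 h2 hκ hκ0 hQ0 le_rfl hsub hcard hchr (Or.inl rfl) fun A hA hA3 => ?_
    obtain ⟨v₁, w₁, v₂, w₂, a1, a2, a3, a4, a5⟩ := hFOR V A (fun e he => hd e (hA he)) (by omega)
      fun n c hc => hno n c ⟨hc.1, fun i => hA (hc.2 i)⟩
    have h3 := hLF V Ω μ A f κ hf (fun e he => hd e (hA he)) hA3 v₁ w₁ v₂ w₂ a1 a2 a3 a4 a5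
    rw [add_zero]
    exact (abs_le.1 h3).1
  · have hT0 : 0 ≤ cyT μ f r := by
      unfold cyT pN
      exact integral_nonneg fun x => sq_nonneg _
    have hcyo := hCYO V Ω μ f κ hf r n c hr hrn hc.1
    have hκT : 0 ≤ κ * cyT μ f r := mul_nonneg hκ0 hT0
    have hκQ : 0 ≤ κ * ∫ x, (∫ y, f x y ∂μ) ^ 2 ∂μ := mul_nonneg hκ0 hQ0
    have hA1 : (Finset.univ.image fun i => s(c i, c (i + 1))) ⊆ edges H := by
      intro e he
      obtain ⟨i, -, rfl⟩ := Finset.mem_image.1 he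
      exact hc.2 i
    have hinj : Function.Injective fun i : Fin (n + 3) => s(c i, c (i + 1)) := by
      intro i j hij
      simp only [Sym2.eq_iff] at hij
      rcases hij with ⟨h, -⟩ | ⟨h, h'⟩
      · exact hc.1 h
      · have e1 := hc.1 h
        have e2 := hc.1 h'
        rw [e1] at e2
        have e3 : (1 : Fin (n + 3)) + 1 = 0 := by
          have : j + 1 + 1 = j + 0 := by rw [e2, add_zero]
          rw [add_assoc] at this
          exact add_left_cancel this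
        have e4 := congrArg Fin.val e3
        rw [Fin.val_add, Fin.val_one, Fin.val_zero] at e4
        rw [Nat.mod_eq_of_lt (by omega)] at e4
        omega
    have hA1c : 3 ≤ (Finset.univ.image fun i => s(c i, c (i + 1))).card := by
      rw [Finset.card_image_of_injective _ hinj, Finset.card_univ, Fintype.card_fin]
      omega
    refine rg2_num hE hS1 hS2 μ (edges H) hd (Q := ∫ x, (∫ y, f x y ∂μ) ^ 2 ∂μ) (T := cyT μ f r)
      (A₁ := Finset.univ.image fun i => s(c i, c (i + 1))) hf hg h1 h2 hκ hκ0 hQ0 hT0 hsub hcard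
      hchr (Or.inr ⟨hA1, hA1c, hcyo⟩) fun A hA hA3 => ?_
    have hdA : ∀ e ∈ A, ¬ e.IsDiag := fun e he => hd e (hA he)
    rw [mul_add]
    rcases hCLS V A r hr hdA hA3 (fun n c hc => hall n c ⟨hc.1, fun i => hA (hc.2 i)⟩) with
      ⟨v₁, w₁, v₂, w₂, a1, a2, a3, a4, a5⟩ | ⟨n', c', b1, b2, b3 | ⟨b3, b4⟩⟩
    · have h3 := hLF V Ω μ A f κ hf hdA hA3 v₁ w₁ v₂ w₂ a1 a2 a3 a4 a5
      have := (abs_le.1 h3).1
      linarith
    · have := (abs_le.1 (hCYA V Ω μ A f κ hf hdA r n' c' hr b3 b1 b2)).1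
      linarith
    rcases b4 with b4 | ⟨a, b, b4, b5, b6⟩ | ⟨i, b, b4, b5, b6⟩ |
      ⟨b4, v₁, v₂, v₃, v₄, b, d0, d1, d2, d3, d4, d5, d6, d7, d8, d9⟩
    · rw [b4, hCYO V Ω μ f κ hf r n' c' hr b3 b1.1]
      linarith
    · have := (abs_le.1 (hCYF V Ω μ A f κ hf hdA r n' c' hr b3 b1 b2 a b b4 b5 b6)).1
      linarith
    · have := (abs_le.1 (hCYL V Ω μ A f κ hf hdA r n' c' hr b3 b1 b2 i b b4 b5 b6)).1
      linarith
    · have := (abs_le.1 (hK V Ω μ A f κ hf hdA v₁ v₂ v₃ v₄ b d0 d1 d2 d3 d4 d5 d6 d7 d8 d9)).1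
      rw [← b4] at this
      linarith

end Pool.FOT
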